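import Pool.Agent.LinK.K0

/-!
# Classes and iterates (helper45)
-/

set_option autoImplicit false

namespace Pool.Agent.H45Pc

open Pool.Agent.LinK

section iterate

variable {V : Type*}

/-- The translates of a class under a permutation which respects the classes. -/
theorem ncard_iterate [Finite V] {r : V → V → Prop} (hsymm : ∀ u v, r u v → r v u)
    (htrans : ∀ u v t, r u v → r v t → r u t) {g : V → V}
    (hg : Function.Injective g) (hr : ∀ u v, r u v → r (g u) (g v)) {x : V} {P : ℕ}
    (hP : 1 ≤ P) (hPx : r x (g^[P] x)) (hmin : ∀ i, 1 ≤ i → i < P → ¬ r x (g^[i] x)) :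
    {u | ∃ (i : ℕ) (v : V), r x v ∧ u = g^[i] v}.ncard = P * {v | r x v}.ncard := by
  classical
  have hri : ∀ (i : ℕ) (u v : V), r u v → r (g^[i] u) (g^[i] v) := by
    intro i
    induction i with
    | zero => exact fun u v h => h
    | succ i ih =>
      intro u v h
      rw [Function.iterate_succ_apply', Function.iterate_succ_apply']
      exact hr _ _ (ih u v h)
  have hPv : ∀ v, r x v → r x (g^[P] v) := fun v hv => htrans _ _ _ hPx (hri P _ _ hv)
  have hPq : ∀ (q : ℕ) (v : V), r x v → r x ((g^[P])^[q] v) := by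
    intro q
    induction q with
    | zero => exact fun v h => h
    | succ q ih =>
      intro v h
      rw [Function.iterate_succ_apply']
      exact hPv _ (ih v h)
  have hne : ∀ (i j : ℕ) (v v' : V), i < j → j < P → r x v → r x v' → g^[i] v ≠ g^[j] v' := by
    intro i j v v' hij hj hv hv' heq
    have h1 : g^[j] v' = g^[i] (g^[j - i] v') := by
      rw [← Function.iterate_add_apply]
      congr 2
      omega
    have h2 : v = g^[j - i] v' := (hg.iterate i) (heq.trans h1)
    refine hmin (j - i) (by omega) (by omega) (htrans _ v _ hv ?_)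
    rw [h2]
    exact hri _ _ _ (hsymm _ _ hv')
  have e : (Fin P × {v | r x v}) ≃ {u | ∃ (i : ℕ) (v : V), r x v ∧ u = g^[i] v} := by
    refine Equiv.ofBijective (fun p => ⟨g^[(p.1 : ℕ)] p.2.1, p.1, p.2.1, p.2.2, rfl⟩) ⟨?_, ?_⟩
    · rintro ⟨i, v, hv⟩ ⟨j, v', hv'⟩ heq
      have heq' : g^[(i : ℕ)] v = g^[(j : ℕ)] v' := congrArg Subtype.val heq
      rcases lt_trichotomy (i : ℕ) (j : ℕ) with h | h | h
      · exact absurd heq' (hne _ _ _ _ h j.2 hv hv')
      · have hij : i = j := Fin.ext h
        subst hij
        have := (hg.iterate _) heq'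
        subst this
        rfl
      · exact absurd heq'.symm (hne _ _ _ _ h i.2 hv' hv)
    · rintro ⟨u, i, v, hv, rfl⟩
      refine ⟨(⟨i % P, Nat.mod_lt _ (by omega)⟩, ⟨(g^[P])^[i / P] v, hPq _ _ hv⟩), ?_⟩
      apply Subtype.ext
      change g^[i % P] ((g^[P])^[i / P] v) = g^[i] v
      rw [← Function.iterate_mul, ← Function.iterate_add_apply, Nat.mod_add_div]
  rw [← Nat.card_coe_set_eq, ← Nat.card_congr e, Nat.card_prod, Nat.card_fin, Nat.card_coe_set_eq]

/-- An injective map of a finite set into itself is onto. -/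
theorem exists_pre [Finite V] {S : Set V} {g : V → V} (hg : Function.Injective g)
    (hS : ∀ u ∈ S, g u ∈ S) {v : V} (hv : v ∈ S) : ∃ u ∈ S, g u = v := by
  have h1 : Function.Injective (fun u : S => (⟨g u, hS u u.2⟩ : S)) := by
    intro u u' huu
    exact Subtype.ext (hg (congrArg Subtype.val huu))
  obtain ⟨u, hu⟩ := Finite.surjective_of_injective h1 ⟨v, hv⟩
  exact ⟨u, u.2, congrArg Subtype.val hu⟩

end iterate

section affine

variable {V : Type*} [AddCommGroup V]

/-- `O_l`: the elements reached from `x` by a translation in `W` and then powers of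
`g 0, ..., g (l - 1)`. -/
def OO (W : AddSubgroup V) (g : ℕ → V → V) (x : V) (l : ℕ) : Set V :=
  iterSets {u | u - x ∈ W} g l

variable {W : AddSubgroup V} {g : ℕ → V → V}

theorem OO_mono {x : V} {l m : ℕ} (hlm : l ≤ m) : OO W g x l ⊆ OO W g x m := by
  induction m, hlm using Nat.le_induction with
  | base => exact le_rfl
  | succ m _ ih => exact fun u hu => ⟨0, u, ih hu, rfl⟩

theorem OO_self (x : V) (l : ℕ) : x ∈ OO W g x l := by
  refine OO_mono (Nat.zero_le l) ?_
  change x - x ∈ W
  rw [sub_self]
  exact W.zero_mem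

variable [Finite V]

/-- the translations which preserve a finite set -/
def trans (S : Set V) : AddSubgroup V where
  carrier := {w | ∀ v ∈ S, v + w ∈ S}
  add_mem' := by
    intro a b ha hb v hv
    have := hb _ (ha v hv)
    rwa [add_assoc] at this
  zero_mem' := by
    intro v hv
    rwa [add_zero]
  neg_mem' := by
    intro a ha v hv
    obtain ⟨u, hu, e⟩ := exists_pre (S := S) (g := fun v => v + a)
      (add_left_injective a) ha hv
    have e' : u + a = v := e
    rw [← e', add_neg_cancel_right]
    exact hu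

end affine

end Pool.Agent.H45Pc
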