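import Pool.Agent.H45Pc.Base
import Pool.Agent.LinP.P0

/-!
# Polycyclic linear parts: the pure algebra (helper45)

`k` affine bijections `g l` of a finite group such that `g l` normalises the group generated by the
translations by `W` and `g 0, ..., g (l - 1)`.
-/

set_option autoImplicit false

namespace Pool.Agent.H45Pc

open Pool.Agent.LinK Pool.Agent.LinP

theorem word_mem {α : Type*} {D : Set α} {f : ℕ → α → α} (e : ℕ → ℕ) (l : ℕ) (u0 : α)
    (h0 : u0 ∈ D) : word f e l u0 ∈ iterSets D f l := by
  induction l with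
  | zero => exact h0
  | succ l ih => exact ⟨e l, _, ih, rfl⟩

variable {V : Type*} [AddCommGroup V]

variable {W : AddSubgroup V} {g : ℕ → V → V} {A : ℕ → V →+ V} {k : ℕ}

/-- the hypotheses on `W` and the maps `g j = A j + g j 0` -/
structure Poly (W : AddSubgroup V) (g : ℕ → V → V) (A : ℕ → V →+ V) (k : ℕ) : Prop where
  aff : ∀ j < k, ∀ u, g j u = A j u + g j 0
  inj : ∀ j < k, Function.Injective (A j)
  inv : ∀ j < k, ∀ w ∈ W, A j w ∈ W
  norm : ∀ l < k, ∀ j < l, ∀ u, ∃ e : ℕ → ℕ, ∃ w ∈ W, g j (g l u) = g l (word g e l u) + w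

theorem Poly.add (h : Poly W g A k) {j : ℕ} (hj : j < k) (u w : V) :
    g j (u + w) = g j u + A j w := by
  rw [h.aff j hj (u + w), h.aff j hj u, map_add]
  abel

theorem Poly.ginj (h : Poly W g A k) {j : ℕ} (hj : j < k) : Function.Injective (g j) := by
  intro u v huv
  rw [h.aff j hj u, h.aff j hj v, add_left_inj] at huv
  exact h.inj j hj huv

variable [Finite V]

theorem Poly.iter_pre (h : Poly W g A k) {j : ℕ} (hj : j < k) (i : ℕ) (u : V) {w : V}
    (hw : w ∈ W) : ∃ w' ∈ W, (g j)^[i] u + w = (g j)^[i] (u + w') := by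
  induction i generalizing w with
  | zero => exact ⟨w, hw, rfl⟩
  | succ i ih =>
    obtain ⟨w₁, hw₁, e⟩ := exists_pre (S := (W : Set V)) (h.inj j hj) (h.inv j hj) hw
    obtain ⟨w', hw', e'⟩ := ih hw₁
    refine ⟨w', hw', ?_⟩
    rw [Function.iterate_succ_apply', Function.iterate_succ_apply', ← e', h.add hj, e]

/-- `O_l` is a union of classes modulo `W`. -/
theorem Poly.OO_add (h : Poly W g A k) {x : V} {l : ℕ} (hl : l ≤ k) {u w : V}
    (hu : u ∈ OO W g x l) (hw : w ∈ W) : u + w ∈ OO W g x l := by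
  induction l generalizing u w with
  | zero =>
    have h1 : u - x ∈ W := hu
    change u + w - x ∈ W
    have h2 : u + w - x = (u - x) + w := by abel
    rw [h2]
    exact W.add_mem h1 hw
  | succ l ih =>
    obtain ⟨i, v, hv, rfl⟩ := hu
    obtain ⟨w', hw', e⟩ := h.iter_pre (show l < k by omega) i v hw
    rw [e]
    exact ⟨i, v + w', ih (by omega) hv hw', rfl⟩

/-- `O_l(x)` is closed under `g j`, `j < l`, for all `x` -/
def Cl (W : AddSubgroup V) (g : ℕ → V → V) (l : ℕ) : Prop :=
  ∀ (x : V) (j : ℕ), j < l → ∀ u ∈ OO W g x l, g j u ∈ OO W g x l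

/-- a set which is closed under `W` and `g j`, `j < l`, contains the classes of its elements -/
theorem sub_of_closed {x : V} {l : ℕ} {S : Set V} (hx : x ∈ S) (hW : ∀ u ∈ S, ∀ w ∈ W, u + w ∈ S)
    (hg : ∀ j < l, ∀ u ∈ S, g j u ∈ S) : OO W g x l ⊆ S := by
  have key : ∀ m, m ≤ l → OO W g x m ⊆ S := by
    intro m
    induction m with
    | zero =>
      intro _ u hu
      have h1 : u - x ∈ W := hu
      have h2 : u = x + (u - x) := by abel
      rw [h2]
      exact hW x hx _ h1
    | succ m ih =>
      intro hm u hu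
      obtain ⟨i, v, hv, rfl⟩ := hu
      have hv' := ih (by omega) hv
      clear hv
      induction i with
      | zero => exact hv'
      | succ i ih2 =>
        rw [Function.iterate_succ_apply']
        exact hg m (by omega) _ ih2
  exact key l le_rfl

theorem Poly.OO_subset (h : Poly W g A k) {x y : V} {l : ℕ} (hl : l ≤ k) (hc : Cl W g l)
    (hy : y ∈ OO W g x l) : OO W g y l ⊆ OO W g x l :=
  sub_of_closed hy (fun _ hu _ hw => h.OO_add hl hu hw) (fun j hj u hu => hc x j hj u hu)

theorem Poly.OO_symm (h : Poly W g A k) {x y : V} {l : ℕ} (hl : l ≤ k) (hc : Cl W g l)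
    (hy : y ∈ OO W g x l) : x ∈ OO W g y l := by
  have key : ∀ m, m ≤ l → ∀ y, y ∈ OO W g x m → x ∈ OO W g y l := by
    intro m
    induction m with
    | zero =>
      intro _ y hy
      have h1 : y - x ∈ W := hy
      refine OO_mono (Nat.zero_le l) ?_
      change x - y ∈ W
      have h2 : x - y = -(y - x) := by abel
      rw [h2]
      exact W.neg_mem h1
    | succ m ih =>
      intro hm y hy
      obtain ⟨i, v, hv, rfl⟩ := hy
      have h1 := ih (by omega) v hv
      refine h.OO_subset hl hc (y := v) ?_ h1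
      have h2 : ∀ (i : ℕ) (z : V), (g m)^[i] v ∈ OO W g z l → v ∈ OO W g z l := by
        intro i z
        induction i with
        | zero => exact fun h => h
        | succ i ih2 =>
          intro h3
          refine ih2 ?_
          rw [Function.iterate_succ_apply'] at h3
          obtain ⟨t, ht, e⟩ := exists_pre (S := OO W g z l) (h.ginj (show m < k by omega))
            (fun u hu => hc z m (show m < l by omega) u hu) h3
          rw [← h.ginj (show m < k by omega) e]
          exact ht
      exact h2 i _ (OO_self _ _)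
  exact key l le_rfl y hy

theorem word_closed {l : ℕ} {S : Set V} (hg : ∀ j < l, ∀ u ∈ S, g j u ∈ S) (e : ℕ → ℕ) {u : V}
    (hu : u ∈ S) : word g e l u ∈ S := by
  have key : ∀ m, m ≤ l → word g e m u ∈ S := by
    intro m
    induction m with
    | zero => exact fun _ => hu
    | succ m ih =>
      intro hm
      change (g m)^[e m] (word g e m u) ∈ S
      have h1 := ih (by omega)
      generalize e m = n
      induction n with
      | zero => exact h1
      | succ n ih2 =>
        rw [Function.iterate_succ_apply']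
        exact hg m (by omega) _ ih2
  exact key l le_rfl

theorem Poly.closed (h : Poly W g A k) {l : ℕ} (hl : l ≤ k) : Cl W g l := by
  induction l with
  | zero =>
    intro x j hj
    omega
  | succ l ih =>
    have hc := ih (by omega)
    have hlk : l < k := by omega
    -- `g_l^i O_l(v)` is closed under `g j`, `j < l`
    have key : ∀ (i : ℕ) (v : V) (j : ℕ), j < l → ∀ u ∈ (g l)^[i] '' OO W g v l,
        g j u ∈ (g l)^[i] '' OO W g v l := by
      intro i
      induction i with
      | zero =>
        rintro v j hj _ ⟨u, hu, rfl⟩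
        exact ⟨g j u, hc v j hj u hu, rfl⟩
      | succ i ih2 =>
        rintro v j hj _ ⟨u, hu, rfl⟩
        obtain ⟨e, w, hw, h1⟩ := h.norm l hlk j hj ((g l)^[i] u)
        rw [Function.iterate_succ_apply', h1]
        obtain ⟨z, hz, h2⟩ := word_closed (g := g) (ih2 v) e
          (show (g l)^[i] u ∈ (g l)^[i] '' OO W g v l from ⟨u, hu, rfl⟩)
        rw [← h2, ← Function.iterate_succ_apply' (g l)]
        obtain ⟨w', hw', h3⟩ := h.iter_pre hlk (i + 1) z hw
        exact ⟨z + w', h.OO_add hlk.le hz hw', h3.symm⟩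
    intro x j hj u hu
    obtain ⟨i, v, hv, rfl⟩ := hu
    rcases Nat.lt_or_ge j l with h1 | h1
    · obtain ⟨z, hz, h2⟩ := key i x j h1 _ ⟨v, hv, rfl⟩
      exact ⟨i, z, hz, h2.symm⟩
    · have : j = l := by omega
      subst this
      exact ⟨i + 1, v, hv, (Function.iterate_succ_apply' _ _ _).symm⟩

/-- `g l` maps `O_l(x)` onto `O_l(g l x)`. -/
theorem Poly.OO_onto (h : Poly W g A k) {l : ℕ} (hl : l < k) {x y : V}
    (hy : y ∈ OO W g (g l x) l) : ∃ y' ∈ OO W g x l, g l y' = y := by
  have hc := h.closed hl.le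
  have hW : ∀ u ∈ g l '' OO W g x l, ∀ w ∈ W, u + w ∈ g l '' OO W g x l := by
    rintro _ ⟨u, hu, rfl⟩ w hw
    obtain ⟨w', hw', e⟩ := h.iter_pre hl 1 u hw
    exact ⟨u + w', h.OO_add hl.le hu hw', e.symm⟩
  have := sub_of_closed (W := W) (g := g) (l := l) (x := g l x) (S := g l '' OO W g x l)
    ⟨x, OO_self _ _, rfl⟩ hW (by
      rintro j hj _ ⟨u, hu, rfl⟩
      obtain ⟨e, w, hw, h1⟩ := h.norm l hl j hj u
      rw [h1]
      exact hW _ ⟨_, word_closed (g := g) (fun j hj u hu => hc x j hj u hu) e hu, rfl⟩ w hw)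
  exact this hy

/-- `g l` maps `O_l(x)` to `O_l(g l x)`. -/
theorem Poly.OO_map (h : Poly W g A k) {x : V} {l : ℕ} (hl : l < k) {u : V}
    (hu : u ∈ OO W g x l) : g l u ∈ OO W g (g l x) l := by
  -- `g l` has finite order
  obtain ⟨N, hN, hN'⟩ : ∃ N, 0 < N ∧ ∀ u, (g l)^[N] u = u := by
    let e := Equiv.ofBijective (g l) (Finite.injective_iff_bijective.1 (h.ginj hl))
    refine ⟨orderOf e, orderOf_pos e, fun u => ?_⟩
    have h1 : (e ^ orderOf e : Equiv.Perm V) u = u := by rw [pow_orderOf_eq_one]; rfl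
    have h2 : ∀ (n : ℕ) (u : V), (e ^ n : Equiv.Perm V) u = (g l)^[n] u := by
      intro n
      induction n with
      | zero => exact fun u => rfl
      | succ n ih2 =>
        intro u
        rw [pow_succ, Equiv.Perm.mul_apply, ih2, Function.iterate_succ_apply]
        rfl
    rw [← h2]
    exact h1
  have hit : ∀ (n : ℕ) (y z : V), y ∈ OO W g ((g l)^[n] z) l →
      ∃ y' ∈ OO W g z l, (g l)^[n] y' = y := by
    intro n
    induction n with
    | zero => exact fun y z h => ⟨y, h, rfl⟩
    | succ n ih =>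
      intro y z hy
      rw [Function.iterate_succ_apply'] at hy
      obtain ⟨y', hy', e'⟩ := h.OO_onto hl hy
      obtain ⟨y'', hy'', e''⟩ := ih y' z hy'
      refine ⟨y'', hy'', ?_⟩
      rw [Function.iterate_succ_apply', e'', e']
  have hx : (g l)^[N - 1] (g l x) = x := by
    rw [← Function.iterate_succ_apply]
    have : (N - 1).succ = N := by omega
    rw [this, hN']
  rw [← hx] at hu
  obtain ⟨y', hy', e'⟩ := hit (N - 1) u (g l x) hu
  have h3 : g l u = y' := by
    rw [← e', ← Function.iterate_succ_apply' (g l)]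
    have : (N - 1).succ = N := by omega
    rw [this, hN']
  rw [h3]
  exact hy'

theorem Poly.ncard_succ (h : Poly W g A k) {x : V} {l P : ℕ} (hl : l < k) (hP : 1 ≤ P)
    (hPx : (g l)^[P] x ∈ OO W g x l) (hmin : ∀ i, 1 ≤ i → i < P → (g l)^[i] x ∉ OO W g x l) :
    (OO W g x (l + 1)).ncard = P * (OO W g x l).ncard := by
  have := ncard_iterate (r := fun u v => v ∈ OO W g u l) (g := g l) (x := x) (P := P)
    (fun u v huv => h.OO_symm hl.le (h.closed hl.le) huv)
    (fun u v t huv hvt => h.OO_subset hl.le (h.closed hl.le) huv hvt) (h.ginj hl)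
    (fun u v huv => h.OO_map hl huv) hP hPx hmin
  exact this

theorem Poly.reach_sub (h : Poly W g A k) {R : Set V} {f : ℕ → V → V} {b₀ : V}
    (hf : ∀ j < k, ∀ u, g j u = f j u + b₀) (hR : ∀ b ∈ R, b - b₀ ∈ W) {x u : V}
    (hu : Relation.ReflTransGen (fun u w => ∃ j, j < k ∧ ∃ b ∈ R, w = f j u + b) x u) :
    u ∈ OO W g x k := by
  induction hu with
  | refl => exact OO_self _ _
  | @tail u z _ hz ih =>
    obtain ⟨j, hj, b, hb, rfl⟩ := hz
    have h1 : f j u + b = g j u + (b - b₀) := by
      rw [hf j hj u]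
      abel
    rw [h1]
    exact h.OO_add le_rfl (h.closed le_rfl x j hj _ ih) (hR b hb)

omit [Finite V] in
/-- a word is affine -/
theorem word_add (haff : ∀ j < k, ∀ u, g j u = A j u + g j 0) {l : ℕ} (hl : l ≤ k)
    (e : ℕ → ℕ) (u w : V) :
    word g e l (u + w) = word g e l u + word (fun j => A j) e l w := by
  induction l with
  | zero => rfl
  | succ l ih =>
    have hs : ∀ (i : ℕ) (u w : V), (g l)^[i] (u + w) = (g l)^[i] u + (A l)^[i] w := by
      intro i
      induction i with
      | zero => exact fun u w => rfl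
      | succ i ih2 =>
        intro u w
        rw [Function.iterate_succ_apply', Function.iterate_succ_apply',
          Function.iterate_succ_apply', ih2, haff l (by omega) (_ + _),
          haff l (by omega) ((g l)^[i] u), map_add]
        abel
    change (g l)^[e l] (word g e l (u + w)) = _
    rw [ih (by omega), hs]
    rfl

omit [Finite V] in
/-- the constant of a relation -/
theorem word_const (haff : ∀ j < k, ∀ u, g j u = A j u + g j 0) {l j : ℕ} (hl : l < k)
    (hj : j < l) {e : ℕ → ℕ} (he : ∀ u, A j (A l u) = A l (word (fun j => A j) e l u)) (u : V) :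
    g j (g l u) = g l (word g e l u) + (g j (g l 0) - g l (word g e l 0)) := by
  have h1 : word g e l u = word g e l 0 + word (fun j => A j) e l u := by
    conv_lhs => rw [← zero_add u]
    exact word_add haff hl.le e 0 u
  have h2 : g j (g l u) = g j (g l 0) + A j (A l u) := by
    rw [haff j (by omega) (g l u), haff l hl u, haff j (by omega) (g l 0), map_add]
    abel
  have h3 : g l (word g e l 0 + word (fun j => A j) e l u) = g l (word g e l 0) +
      A l (word (fun j => A j) e l u) := by
    rw [haff l hl (_ + _), haff l hl (word g e l 0), map_add]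
    abel
  rw [h1, h3, h2, he]
  abel

theorem sub_reach {R : Set V} {f : ℕ → V → V} {b₀ : V} {E : ℕ → ℕ → (ℕ → ℕ) → Prop}
    (hk : 1 ≤ k) (hb₀ : b₀ ∈ R)
    (hf : ∀ j < k, ∀ u, g j u = f j u + b₀)
    (haff : ∀ j < k, ∀ u, g j u = A j u + g j 0)
    (hinj : ∀ j < k, Function.Injective (A j))
    (hE : ∀ l < k, ∀ j < l, ∀ e, E l j e →
      ∀ u, A j (A l u) = A l (word (fun j => A j) e l u))
    (hW : ∀ T : AddSubgroup V, (∀ j < k, ∀ w ∈ T, A j w ∈ T) →
      (∀ b ∈ R, ∀ b' ∈ R, b - b' ∈ T) →
      (∀ l < k, ∀ j < l, ∀ e, E l j e → g j (g l 0) - g l (word g e l 0) ∈ T) → W ≤ T)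
    {x u : V} (hu : u ∈ OO W g x k) :
    Relation.ReflTransGen (fun u w => ∃ j, j < k ∧ ∃ b ∈ R, w = f j u + b) x u := by
  obtain ⟨S, hS⟩ : ∃ S : Set V, S = {u | Relation.ReflTransGen
    (fun u w => ∃ j, j < k ∧ ∃ b ∈ R, w = f j u + b) x u} := ⟨_, rfl⟩
  have hSg : ∀ j < k, ∀ u ∈ S, g j u ∈ S := by
    intro j hj u hu
    rw [hS] at hu ⊢
    exact Relation.ReflTransGen.tail hu ⟨j, hj, b₀, hb₀, hf j hj u⟩
  have hgi : ∀ j < k, Function.Injective (g j) := by
    intro j hj u v huv
    rw [haff j hj u, haff j hj v, add_left_inj] at huv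
    exact hinj j hj huv
  have hpre : ∀ j < k, ∀ v ∈ S, ∃ u ∈ S, g j u = v := fun j hj v hv =>
    exists_pre (hgi j hj) (hSg j hj) hv
  have hpreW : ∀ (l : ℕ), l ≤ k → ∀ (e : ℕ → ℕ), ∀ v ∈ S, ∃ u ∈ S, word g e l u = v := by
    intro l
    induction l with
    | zero => exact fun _ _ v hv => ⟨v, hv, rfl⟩
    | succ l ih =>
      intro hl e v hv
      have h1 : ∀ (i : ℕ), ∀ v ∈ S, ∃ u ∈ S, (g l)^[i] u = v := by
        intro i
        induction i with
        | zero => exact fun v hv => ⟨v, hv, rfl⟩
        | succ i ih2 =>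
          intro v hv
          obtain ⟨t, ht, et⟩ := hpre l (by omega) v hv
          obtain ⟨u, hu, eu⟩ := ih2 t ht
          refine ⟨u, hu, ?_⟩
          rw [Function.iterate_succ_apply', eu, et]
      obtain ⟨t, ht, et⟩ := h1 (e l) v hv
      obtain ⟨u, hu, eu⟩ := ih (by omega) e t ht
      refine ⟨u, hu, ?_⟩
      change (g l)^[e l] (word g e l u) = v
      rw [eu, et]
  have hWT : W ≤ trans S := by
    refine hW _ ?_ ?_ ?_
    · intro j hj w hw v hv
      obtain ⟨u, hu, e⟩ := hpre j hj v hv
      have h1 : v + A j w = g j (u + w) := by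
        rw [← e, haff j hj (u + w), haff j hj u, map_add]
        abel
      rw [h1]
      exact hSg j hj _ (hw u hu)
    · intro b hb b' hb' v hv
      have hfi : Function.Injective (fun u => f 0 u + b') := by
        intro u u' huu
        have h1 : f 0 u + b' = f 0 u' + b' := huu
        apply hgi 0 (by omega)
        rw [hf 0 (by omega), hf 0 (by omega), add_right_cancel h1]
      obtain ⟨u, hu, e⟩ := exists_pre (S := S) hfi (fun u hu => by
        rw [hS] at hu ⊢
        exact Relation.ReflTransGen.tail hu ⟨0, by omega, b', hb', rfl⟩) hv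
      have e' : f 0 u + b' = v := e
      have h1 : v + (b - b') = f 0 u + b := by
        rw [← e']
        abel
      rw [h1, hS]
      rw [hS] at hu
      exact Relation.ReflTransGen.tail hu ⟨0, by omega, b, hb, rfl⟩
    · intro l hl j hj e he v hv
      obtain ⟨t, ht, et⟩ := hpre l hl v hv
      obtain ⟨u, hu, eu⟩ := hpreW l hl.le e t ht
      rw [← et, ← eu, ← word_const haff hl hj (hE l hl j hj e he) u]
      exact hSg j (by omega) _ (hSg l hl _ hu)
  have key := sub_of_closed (W := W) (g := g) (l := k) (x := x) (S := S) (by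
    rw [hS]
    exact Relation.ReflTransGen.refl) (fun u hu w hw => hWT hw u hu) hSg
  have := key hu
  rw [hS] at this
  exact this

end Pool.Agent.H45Pc
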